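import Mathlib
import Pool.Agent.helper85.PG.Spec3

/-!
# Module GPS of the Paley graph project: the system of a progression
-/

set_option autoImplicit false

namespace Pool.Agent.helper85.PG

open Module Finset

/-- the homomorphism `n ↦ (n i / N i, ∑ n i u i)` -/
noncomputable def gpsHom {p : ℕ} {s : ℕ} (u : Fin s → ZMod p) (N : Fin s → ℕ) :
    (Fin s → ℤ) →+ ((Fin s → ℝ) × ZMod p) where
  toFun n := (fun i => (n i : ℝ) / (N i : ℝ), ∑ i, (n i : ZMod p) * u i)
  map_zero' := by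
    refine Prod.ext ?_ ?_
    · funext i; simp
    · simp
  map_add' n n' := by
    refine Prod.ext ?_ ?_
    · funext i
      simp only [Pi.add_apply, Prod.fst_add, Int.cast_add]
      ring
    · simp only [Pi.add_apply, Prod.snd_add, Int.cast_add]
      rw [← Finset.sum_add_distrib]
      exact Finset.sum_congr rfl fun i _ => by ring

theorem gps_norm {s : ℕ} (N : Fin s → ℕ) (hN : ∀ i, 1 ≤ N i) (n : Fin s → ℤ) (R : ℝ)
    (hR : 0 ≤ R) :
    ‖(fun i => (n i : ℝ) / (N i : ℝ) : Fin s → ℝ)‖ ≤ R ↔ ∀ i, |(n i : ℝ)| ≤ R * (N i : ℝ) := by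
  rw [pi_norm_le_iff_of_nonneg hR]
  refine forall_congr' fun i => ?_
  have hi : (0 : ℝ) < (N i : ℝ) := by exact_mod_cast (hN i)
  rw [Real.norm_eq_abs, abs_div, abs_of_pos hi, div_le_iff₀ hi]

theorem gps_FB {p : ℕ} {s : ℕ} (u : Fin s → ZMod p) (N : Fin s → ℕ) (hN : ∀ i, 1 ≤ N i) :
    FB (gpsHom u N).range := by
  intro R
  by_cases hR : 0 ≤ R
  · have hfin : (Set.univ.pi fun i : Fin s =>
        (Set.Icc (-(⌈R * (N i : ℝ)⌉)) (⌈R * (N i : ℝ)⌉) : Set ℤ)).Finite :=
      Set.Finite.pi fun i => Set.finite_Icc _ _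
    refine (hfin.image (gpsHom u N)).subset ?_
    rintro z ⟨⟨n, hn⟩, hz⟩
    refine ⟨n, ?_, hn⟩
    rw [← hn] at hz
    have h1 := (gps_norm N hN n R hR).1 hz
    intro i _
    have h2 := abs_le.1 (h1 i)
    have h3 : R * (N i : ℝ) ≤ (⌈R * (N i : ℝ)⌉ : ℝ) := Int.le_ceil _
    constructor
    · have : (-(⌈R * (N i : ℝ)⌉) : ℝ) ≤ (n i : ℝ) := by linarith
      exact_mod_cast this
    · have : (n i : ℝ) ≤ (⌈R * (N i : ℝ)⌉ : ℝ) := by linarith
      exact_mod_cast this
  · have : ball (gpsHom u N).range R = ∅ := by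
      ext z
      simp only [mem_ball, Set.mem_empty_iff_false, iff_false, not_and]
      intro _ h
      exact hR ((norm_nonneg _).trans h)
    rw [this]
    exact Set.finite_empty

theorem GPS : GPS_stmt := by
  intro p _ s u N hN
  refine ⟨fun R => PP (gpsHom u N).range R, ⟨(Fin s → ℝ), inferInstance, inferInstance,
    (gpsHom u N).range, inferInstance, ?_, gps_FB u N hN, fun R => rfl⟩, ?_⟩
  · rw [Module.finrank_pi, Fintype.card_fin]
  · intro k y
    rw [mem_PP]
    have hk : (0 : ℝ) ≤ (k : ℝ) := Nat.cast_nonneg k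
    constructor
    · rintro ⟨x, ⟨n, hn⟩, hx⟩
      have h1 : (fun i => (n i : ℝ) / (N i : ℝ)) = x := congrArg Prod.fst hn
      have h2 : ∑ i, (n i : ZMod p) * u i = y := congrArg Prod.snd hn
      rw [← h1] at hx
      have h3 := (gps_norm N hN n k hk).1 hx
      refine ⟨n, fun i => ?_, h2.symm⟩
      have := h3 i
      exact_mod_cast this
    · rintro ⟨n, hn, hy⟩
      refine ⟨fun i => (n i : ℝ) / (N i : ℝ), ⟨n, ?_⟩, ?_⟩
      · rw [hy]; rfl
      · refine (gps_norm N hN n k hk).2 fun i => ?_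
        have := hn i
        exact_mod_cast this

end Pool.Agent.helper85.PG
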