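import Mathlib
import Pool.Agent.helper85.PG.Spec2

/-!
# Module WBI of the Paley graph project
-/

set_option autoImplicit false

namespace Pool.Agent.helper85.PG

open Finset

theorem wbi_sum_ite {p : ℕ} [Fact p.Prime] (a : ZMod p) :
    ∑ ψ : AddChar (ZMod p) ℂ, ψ a = if a = 0 then (p : ℂ) else 0 := by
  have h := AddChar.sum_apply_eq_ite (α := ZMod p) a
  rw [h, ZMod.card]

theorem wbi_conj {p : ℕ} [Fact p.Prime] (ψ : AddChar (ZMod p) ℂ) (a : ZMod p) :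
    (starRingEnd ℂ) (ψ a) = ψ (-a) := by
  rw [AddChar.map_neg_eq_conj]

theorem wbi_parseval {p : ℕ} [Fact p.Prime] (A : Finset (ZMod p)) (α : ZMod p → ℂ)
    (hα : ∀ a, ‖α a‖ ≤ 1) :
    ∑ ψ : AddChar (ZMod p) ℂ, ‖∑ a ∈ A, α a * ψ (-a)‖ ^ 2 ≤ (p : ℝ) * (A.card : ℝ) := by
  have key : ((∑ ψ : AddChar (ZMod p) ℂ, ‖∑ a ∈ A, α a * ψ (-a)‖ ^ 2 : ℝ) : ℂ) =
      ((p : ℝ) * ∑ a ∈ A, ‖α a‖ ^ 2 : ℝ) := by
    push_cast
    have h1 : ∀ ψ : AddChar (ZMod p) ℂ, ((‖∑ a ∈ A, α a * ψ (-a)‖ : ℂ)) ^ 2 =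
        ∑ a ∈ A, ∑ a' ∈ A, (α a * (starRingEnd ℂ) (α a')) * ψ (a' - a) := by
      intro ψ
      rw [← Complex.mul_conj', map_sum, Finset.sum_mul_sum]
      refine Finset.sum_congr rfl fun a _ => Finset.sum_congr rfl fun a' _ => ?_
      rw [map_mul, wbi_conj, neg_neg, show a' - a = -a + a' by ring, AddChar.map_add_eq_mul]
      ring
    rw [Finset.sum_congr rfl fun ψ _ => h1 ψ, Finset.sum_comm]
    rw [Finset.mul_sum]
    refine Finset.sum_congr rfl fun a ha => ?_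
    rw [Finset.sum_comm]
    have h2 : ∀ a' ∈ A, ∑ ψ : AddChar (ZMod p) ℂ, (α a * (starRingEnd ℂ) (α a')) * ψ (a' - a) =
        if a' = a then (p : ℂ) * (α a * (starRingEnd ℂ) (α a')) else 0 := by
      intro a' _
      rw [← Finset.mul_sum, wbi_sum_ite]
      by_cases h : a' = a
      · rw [if_pos h, if_pos (by rw [h, sub_self])]; ring
      · rw [if_neg h, if_neg (fun h' => h (sub_eq_zero.1 h')), mul_zero]
    rw [Finset.sum_congr rfl h2, Finset.sum_ite_eq' A a, if_pos ha, Complex.mul_conj']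
  have key' : ∑ ψ : AddChar (ZMod p) ℂ, ‖∑ a ∈ A, α a * ψ (-a)‖ ^ 2 =
      (p : ℝ) * ∑ a ∈ A, ‖α a‖ ^ 2 := by exact_mod_cast key
  rw [key']
  refine mul_le_mul_of_nonneg_left ?_ (Nat.cast_nonneg _)
  calc ∑ a ∈ A, ‖α a‖ ^ 2 ≤ ∑ a ∈ A, (1 : ℝ) :=
        Finset.sum_le_sum fun a _ => pow_le_one₀ (norm_nonneg _) (hα a)
    _ = (A.card : ℝ) := by simp

theorem wbi_inv {p : ℕ} [Fact p.Prime] (A B : Finset (ZMod p)) (α β g : ZMod p → ℂ) :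
    ∑ ψ : AddChar (ZMod p) ℂ, (∑ c : ZMod p, g c * ψ c) *
      ((∑ a ∈ A, α a * ψ (-a)) * (∑ b ∈ B, β b * ψ (-b))) =
    (p : ℂ) * ∑ a ∈ A, ∑ b ∈ B, α a * β b * g (a + b) := by
  have h1 : ∀ ψ : AddChar (ZMod p) ℂ, (∑ c : ZMod p, g c * ψ c) *
      ((∑ a ∈ A, α a * ψ (-a)) * (∑ b ∈ B, β b * ψ (-b))) =
      ∑ a ∈ A, ∑ b ∈ B, ∑ c : ZMod p, (α a * β b * g c) * ψ (c - (a + b)) := by
    intro ψ
    rw [Finset.sum_mul_sum A B, Finset.mul_sum]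
    refine Finset.sum_congr rfl fun a _ => ?_
    rw [Finset.mul_sum]
    refine Finset.sum_congr rfl fun b _ => ?_
    rw [Finset.sum_mul]
    refine Finset.sum_congr rfl fun c _ => ?_
    rw [show c - (a + b) = c + (-a + -b) by ring, AddChar.map_add_eq_mul,
      AddChar.map_add_eq_mul]
    ring
  rw [Finset.sum_congr rfl fun ψ _ => h1 ψ, Finset.sum_comm, Finset.mul_sum]
  refine Finset.sum_congr rfl fun a _ => ?_
  rw [Finset.sum_comm, Finset.mul_sum]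
  refine Finset.sum_congr rfl fun b _ => ?_
  rw [Finset.sum_comm]
  have h2 : ∀ c ∈ (Finset.univ : Finset (ZMod p)),
      ∑ ψ : AddChar (ZMod p) ℂ, (α a * β b * g c) * ψ (c - (a + b)) =
      if c = a + b then (p : ℂ) * (α a * β b * g c) else 0 := by
    intro c _
    rw [← Finset.mul_sum, wbi_sum_ite]
    by_cases h : c = a + b
    · rw [if_pos h, if_pos (by rw [h, sub_self])]; ring
    · rw [if_neg h, if_neg (fun h' => h (sub_eq_zero.1 h')), mul_zero]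
  rw [Finset.sum_congr rfl h2, Finset.sum_ite_eq' _ (a + b), if_pos (Finset.mem_univ _)]

theorem wbi_main (p : ℕ) [Fact p.Prime] (A B : Finset (ZMod p)) (α β g : ZMod p → ℂ)
    (W : ℝ) (hα : ∀ a, ‖α a‖ ≤ 1) (hβ : ∀ b, ‖β b‖ ≤ 1)
    (hg : ∀ ψ : AddChar (ZMod p) ℂ, ‖∑ c : ZMod p, g c * ψ c‖ ≤ W) :
    ‖∑ a ∈ A, ∑ b ∈ B, α a * β b * g (a + b)‖ ≤
      W * (Real.sqrt (A.card : ℝ) * Real.sqrt (B.card : ℝ)) := by
  have hp : (0 : ℝ) < p := by exact_mod_cast (Fact.out : p.Prime).pos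
  have hW : 0 ≤ W := (norm_nonneg _).trans (hg 0)
  set F : AddChar (ZMod p) ℂ → ℝ := fun ψ => ‖∑ a ∈ A, α a * ψ (-a)‖ with hF
  set H : AddChar (ZMod p) ℂ → ℝ := fun ψ => ‖∑ b ∈ B, β b * ψ (-b)‖ with hH
  have h1 : (p : ℝ) * ‖∑ a ∈ A, ∑ b ∈ B, α a * β b * g (a + b)‖ ≤
      W * ∑ ψ : AddChar (ZMod p) ℂ, F ψ * H ψ := by
    have : (p : ℝ) * ‖∑ a ∈ A, ∑ b ∈ B, α a * β b * g (a + b)‖ =
        ‖(p : ℂ) * ∑ a ∈ A, ∑ b ∈ B, α a * β b * g (a + b)‖ := by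
      rw [norm_mul, Complex.norm_natCast]
    rw [this, ← wbi_inv, Finset.mul_sum]
    refine (norm_sum_le _ _).trans (Finset.sum_le_sum fun ψ _ => ?_)
    rw [norm_mul, norm_mul]
    exact mul_le_mul_of_nonneg_right (hg ψ) (mul_nonneg (norm_nonneg _) (norm_nonneg _))
  have h2 : ∑ ψ : AddChar (ZMod p) ℂ, F ψ * H ψ ≤
      Real.sqrt ((p : ℝ) * A.card) * Real.sqrt ((p : ℝ) * B.card) := by
    refine (Real.sum_mul_le_sqrt_mul_sqrt _ F H).trans ?_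
    exact mul_le_mul (Real.sqrt_le_sqrt (wbi_parseval A α hα))
      (Real.sqrt_le_sqrt (wbi_parseval B β hβ)) (Real.sqrt_nonneg _) (Real.sqrt_nonneg _)
  have h3 : Real.sqrt ((p : ℝ) * A.card) * Real.sqrt ((p : ℝ) * B.card) =
      (p : ℝ) * (Real.sqrt (A.card : ℝ) * Real.sqrt (B.card : ℝ)) := by
    rw [Real.sqrt_mul hp.le, Real.sqrt_mul hp.le]
    have := Real.mul_self_sqrt hp.le
    calc _ = (Real.sqrt p * Real.sqrt p) * (Real.sqrt (A.card : ℝ) * Real.sqrt (B.card : ℝ)) := by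
          ring
      _ = _ := by rw [this]
  have h4 : (p : ℝ) * ‖∑ a ∈ A, ∑ b ∈ B, α a * β b * g (a + b)‖ ≤
      (p : ℝ) * (W * (Real.sqrt (A.card : ℝ) * Real.sqrt (B.card : ℝ))) := by
    refine h1.trans ((mul_le_mul_of_nonneg_left h2 hW).trans (le_of_eq ?_))
    rw [h3]; ring
  exact le_of_mul_le_mul_left h4 hp

theorem WBI : WBI_stmt := by
  intro p _ A B α β g W hα hβ hg
  exact wbi_main p A B α β g W hα hβ hg

end Pool.Agent.helper85.PG
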