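import Pool.Agent.helper33.PG.Spec

/-!
# Row MNB of project PG (MP_37e5fa_nt)
-/

set_option autoImplicit false

namespace Pool.Agent.PG

theorem MNB (hKEY : KEY_stmt) : MNB_stmt := by
  intro N n k q r e hk hN hdvd he heq
  set D : ℕ := k * 2 ^ n + 1 with hD
  set c : ℕ := 2 ^ e * (2 * q).choose e with hc
  have hD2 : 2 ≤ D := by
    have : 0 < k * 2 ^ n := Nat.mul_pos hk (pow_pos (by norm_num) _)
    omega
  have hc1 : 1 ≤ c := by
    have h1 : 0 < (2 * q).choose e := Nat.choose_pos (by omega)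
    exact Nat.mul_pos (pow_pos (by norm_num) _) h1
  have hkq : 1 ≤ k ^ q := Nat.one_le_pow _ _ hk
  have hex : ∃ b : ℕ, 2 ^ (r + 1) * c < D ^ b :=
    ⟨2 ^ (r + 1) * c, lt_of_lt_of_le Nat.lt_two_pow_self (Nat.pow_le_pow_left hD2 _)⟩
  classical
  obtain ⟨b, hb, hmin⟩ : ∃ b : ℕ, 2 ^ (r + 1) * c < D ^ b ∧
      ∀ m, m < b → ¬ 2 ^ (r + 1) * c < D ^ m :=
    ⟨Nat.find hex, Nat.find_spec hex, fun m hm => Nat.find_min hex hm⟩
  have hb1 : 1 ≤ b := by
    rcases Nat.eq_zero_or_pos b with h0 | h0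
    · rw [h0, pow_zero] at hb
      have : 1 ≤ 2 ^ (r + 1) * c := Nat.mul_pos (pow_pos (by norm_num) _) hc1
      omega
    · exact h0
  have hbm : D ^ (b - 1) ≤ 2 ^ (r + 1) * c := not_lt.mp (hmin (b - 1) (by omega))
  have hfin : 2 ^ (r + 2) * c ^ 2 * k ^ q = (2 ^ (r + 1) * c) * (2 * c * k ^ q) := by
    rw [pow_succ 2 (r + 1)]; ring
  rw [hfin]
  by_cases hbe : e ≤ b
  · calc D ^ (e - 1) ≤ D ^ (b - 1) := Nat.pow_le_pow_right (by omega) (by omega)
      _ ≤ 2 ^ (r + 1) * c := hbm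
      _ = 2 ^ (r + 1) * c * 1 := (mul_one _).symm
      _ ≤ (2 ^ (r + 1) * c) * (2 * c * k ^ q) := by
        apply Nat.mul_le_mul_left
        have : 1 * 1 * 1 ≤ 2 * c * k ^ q := Nat.mul_le_mul (Nat.mul_le_mul (by norm_num) hc1) hkq
        omega
  · have hbe' : b < e := not_le.mp hbe
    have h := hKEY N n k q r e b hk hN hdvd hb1 hbe' heq
    rw [← hD, ← hc] at h
    have hsplit : D ^ e = D ^ b * D ^ (e - b) := by rw [← pow_add]; congr 1; omega
    have hpos : 0 < D ^ (e - b) := pow_pos (by omega) _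
    have hposb : 0 < D ^ b := pow_pos (by omega) _
    have h2 : D ^ (e - b) ≤ 2 * c * k ^ q := by
      have h3 : 2 * (c * (2 ^ r * D ^ (e - b))) ≤ D ^ e := by
        rw [hsplit]
        calc 2 * (c * (2 ^ r * D ^ (e - b))) = (2 ^ (r + 1) * c) * D ^ (e - b) := by
              rw [pow_succ]; ring
          _ ≤ D ^ b * D ^ (e - b) := Nat.mul_le_mul_right _ hb.le
      have h4 : c * (2 ^ r * D ^ (e - b) + k ^ q * D ^ b) =
          c * (2 ^ r * D ^ (e - b)) + c * (k ^ q * D ^ b) := mul_add _ _ _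
      rw [h4] at h
      have h5 : D ^ e ≤ 2 * (c * (k ^ q * D ^ b)) := by omega
      rw [hsplit] at h5
      have h6 : D ^ b * D ^ (e - b) ≤ D ^ b * (2 * c * k ^ q) := by
        calc D ^ b * D ^ (e - b) ≤ 2 * (c * (k ^ q * D ^ b)) := h5
          _ = D ^ b * (2 * c * k ^ q) := by ring
      exact Nat.le_of_mul_le_mul_left h6 hposb
    calc D ^ (e - 1) = D ^ (b - 1) * D ^ (e - b) := by rw [← pow_add]; congr 1; omega
      _ ≤ (2 ^ (r + 1) * c) * (2 * c * k ^ q) := Nat.mul_le_mul hbm h2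

end Pool.Agent.PG
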